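import Pool.Agent.K1H72.CD.Stm

/-! Project CD (helper72), piece BLK: a dual path around an edge blocks. -/

set_option autoImplicit false

namespace Pool.Agent.K1H77.CD

open H974 H12S Finset Pool.Agent.K1H72.CD

theorem hstep (G : Set Edg) (y : ℤ) (hG : ∀ x : ℤ, ((x, y, true) : Edg) ∈ G) (n : ℕ) :
    ∀ x : ℤ, Reach G (x, y) (x + n, y) := by
  induction n with
  | zero =>
    intro x
    simpa using Reach.refl G (x, y)
  | succ n ih =>
    intro x
    refine (ih x).trans (Adj.reach ⟨(x + n, y, true), hG _, Or.inl ⟨rfl, ?_⟩⟩)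
    rw [tgt_true]
    push_cast
    rw [add_assoc]

theorem hline (G : Set Edg) (y : ℤ) (hG : ∀ x : ℤ, ((x, y, true) : Edg) ∈ G) (x x' : ℤ) :
    Reach G (x, y) (x', y) := by
  rcases le_total x x' with h | h
  · have := hstep G y hG (x' - x).toNat x
    rwa [Int.toNat_of_nonneg (by omega), add_sub_cancel] at this
  · have := hstep G y hG (x - x').toNat x'
    rw [Int.toNat_of_nonneg (by omega), add_sub_cancel] at this
    exact this.symm

theorem vstep (G : Set Edg) (x : ℤ) (hG : ∀ y : ℤ, ((x, y, false) : Edg) ∈ G) (n : ℕ) :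
    ∀ y : ℤ, Reach G (x, y) (x, y + n) := by
  induction n with
  | zero =>
    intro y
    simpa using Reach.refl G (x, y)
  | succ n ih =>
    intro y
    refine (ih y).trans (Adj.reach ⟨(x, y + n, false), hG _, Or.inl ⟨rfl, ?_⟩⟩)
    rw [tgt_false]
    push_cast
    rw [add_assoc]

theorem vline (G : Set Edg) (x : ℤ) (hG : ∀ y : ℤ, ((x, y, false) : Edg) ∈ G) (y y' : ℤ) :
    Reach G (x, y) (x, y') := by
  rcases le_total y y' with h | h
  · have := vstep G x hG (y' - y).toNat y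
    rwa [Int.toNat_of_nonneg (by omega), add_sub_cancel] at this
  · have := vstep G x hG (y - y').toNat y'
    rw [Int.toNat_of_nonneg (by omega), add_sub_cancel] at this
    exact this.symm

/-- a boundary vertex of the box is connected outside to the corner -/
theorem corner (m : ℕ) (w : Vtx) (hw : w ∈ bdR (-(m : ℤ)) m (-(m : ℤ)) m) :
    Reach ((↑(boxE m) : Set Edg)ᶜ) w ((m : ℤ) + 1, (m : ℤ) + 1) := by
  obtain ⟨x, y⟩ := w
  obtain ⟨-, hb⟩ := hw
  have ht : ∀ x y : ℤ, ((x, y, true) : Edg) ∈ ((↑(boxE m) : Set Edg)ᶜ) ↔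
      ¬ (-(m : ℤ) ≤ x ∧ x < m ∧ -(m : ℤ) ≤ y ∧ y ≤ m) := by
    intro x y
    rw [Set.mem_compl_iff, mem_coe, boxE, mem_RE_true]
  have hf : ∀ x y : ℤ, ((x, y, false) : Edg) ∈ ((↑(boxE m) : Set Edg)ᶜ) ↔
      ¬ (-(m : ℤ) ≤ x ∧ x ≤ m ∧ -(m : ℤ) ≤ y ∧ y < m) := by
    intro x y
    rw [Set.mem_compl_iff, mem_coe, boxE, mem_RE_false]
  have top := hline ((↑(boxE m) : Set Edg)ᶜ) (m + 1) (fun x => (ht _ _).2 (by omega))
  have bot := hline ((↑(boxE m) : Set Edg)ᶜ) (-m - 1) (fun x => (ht _ _).2 (by omega))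
  have rig := vline ((↑(boxE m) : Set Edg)ᶜ) (m + 1) (fun x => (hf _ _).2 (by omega))
  have lef := vline ((↑(boxE m) : Set Edg)ᶜ) (-m - 1) (fun x => (hf _ _).2 (by omega))
  simp only at hb
  rcases hb with h | h | h | h
  · subst h
    have h1 : Reach ((↑(boxE m) : Set Edg)ᶜ) (-(m : ℤ), y) (-m - 1, y) :=
      Adj.reach ⟨(-m - 1, y, true), (ht _ _).2 (by omega), Or.inr ⟨rfl, by
        rw [tgt_true, sub_add_cancel]⟩⟩
    exact (h1.trans (lef y (m + 1))).trans (top _ _)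
  · subst h
    have h1 : Reach ((↑(boxE m) : Set Edg)ᶜ) ((m : ℤ), y) (m + 1, y) :=
      Adj.reach ⟨(m, y, true), (ht _ _).2 (by omega), Or.inl ⟨rfl, rfl⟩⟩
    exact h1.trans (rig y (m + 1))
  · subst h
    have h1 : Reach ((↑(boxE m) : Set Edg)ᶜ) (x, -(m : ℤ)) (x, -m - 1) :=
      Adj.reach ⟨(x, -m - 1, false), (hf _ _).2 (by omega), Or.inr ⟨rfl, by
        rw [tgt_false, sub_add_cancel]⟩⟩
    exact (h1.trans (bot x (m + 1))).trans (rig _ _)
  · subst h
    have h1 : Reach ((↑(boxE m) : Set Edg)ᶜ) (x, (m : ℤ)) (x, m + 1) :=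
      Adj.reach ⟨(x, m, false), (hf _ _).2 (by omega), Or.inl ⟨rfl, rfl⟩⟩
    exact h1.trans (top x (m + 1))

theorem t_BLK : Pool.Agent.K1H72.CD.S_BLK := by
  intro m F hm hD
  set B : Set Edg := ↑(boxE m) with hB
  have he : e1 ∈ B := by
    rw [hB, mem_coe, boxE]
    show ((0, 0, true) : Edg) ∈ _
    rw [mem_RE_true]
    omega
  set F' : Set Edg := (F ∩ B) ∪ Bᶜ ∪ {e1} with hF'
  have hsub : (B \ F) \ {e1} ⊆ F'ᶜ := by
    rintro g ⟨⟨h1, h2⟩, h3⟩ h4
    rcases h4 with (h4 | h4) | h4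
    · exact h2 h4.1
    · exact h4 h1
    · exact h3 h4
  have hN : ¬ Reach (F' \ {e1}) (0, 0) (1, 0) := by
    have h1 : DReach F'ᶜ (dsrc e1) (dtgt e1) := by
      have h2 : DReach F'ᶜ (0, -1) (0, 0) := DReach.mono hsub hD
      exact h2
    exact t_BRI F' e1 (Or.inr rfl) h1
  have hs1 : (F ∩ B) \ {e1} ⊆ F' \ {e1} := fun g hg => ⟨Or.inl (Or.inl hg.1), hg.2⟩
  have hs2 : Bᶜ ⊆ F' \ {e1} := by
    intro g hg
    refine ⟨Or.inl (Or.inr hg), ?_⟩
    intro h
    rw [Set.mem_singleton_iff] at h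
    rw [h] at hg
    exact hg he
  refine ⟨fun hU => hN (Reach.mono hs1 hU), ?_⟩
  rintro ⟨⟨w, hw, h1⟩, ⟨w', hw', h2⟩, -⟩
  have h3 : Reach (F' \ {e1}) (0, 0) w := Reach.mono hs1 h1
  have h4 : Reach (F' \ {e1}) (1, 0) w' := Reach.mono hs1 h2
  have h5 : Reach (F' \ {e1}) w w' :=
    Reach.mono hs2 ((corner m w hw).trans (corner m w' hw').symm)
  exact hN ((h3.trans h5).trans h4.symm)

end Pool.Agent.K1H77.CD
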